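import Pool.Agent.helper91.CSS.WO.Spec

/-!
# Project ewp: (MP_70a088_an), part A: row CHO (copy of helper26/WP/CHO.lean)
-/

set_option autoImplicit false

open Complex Metric Set Filter Topology MeasureTheory
open V3S (UF)
open SEW
open SEWA (Rt cI)
noncomputable section

open CSS (SE)

namespace SEWO

open Classical in
theorem CHO (hRHO : SEWA.RHO_stmt) (hNNB : SEWA.NNB_stmt) (hITB : SEWA.ITB_stmt) : CHO_stmt := by
  intro f δ ε₁ hδ hδ1 hε hε1 hWO hex
  obtain ⟨hk1, hkne⟩ := Nat.find_spec hex
  set k := Nat.find hex with hkdef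
  obtain ⟨hr1, -, hr3, hr4, -⟩ := hRHO f k hk1
  obtain ⟨R, hR⟩ := hNNB f k δ ε₁ hk1 hδ hδ1 hε hε1
  obtain ⟨-, -, -, hdiff, -, -, -, -⟩ := hITB f
  have hcr : Continuous (fun w => rh f k w) := by
    rw [Metric.continuous_iff]
    intro b ε hε
    refine ⟨ε, hε, fun a ha => ?_⟩
    rw [Real.dist_eq]
    rw [dist_eq_norm] at ha
    exact lt_of_le_of_lt (hr3 a b) ha
  have hci : Continuous (it f k) := (hdiff k).continuous
  have hcd : Continuous (deriv (it f k)) :=
    ((hdiff k).contDiff (n := 1)).continuous_deriv le_rfl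
  have hclosed : IsClosed (NN f δ ε₁ k) := by
    apply IsClosed.and
    · exact isClosed_le (hci.sub continuous_id).norm (continuous_const.mul hcr)
    · exact isClosed_le (hcd.sub continuous_const).norm continuous_const
  have hbdd : NN f δ ε₁ k ⊆ closedBall 0 R := by
    intro w hw
    rw [mem_closedBall, dist_zero_right]
    exact hR w hw
  have hcomp : IsCompact (NN f δ ε₁ k) :=
    (isCompact_closedBall 0 R).of_isClosed_subset hclosed hbdd
  have hpos : ∀ w ∈ NN f δ ε₁ k, 0 < rh f k w := by
    intro w hw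
    apply hr4
    intro h0
    have h1 := hw.2
    rw [h0, zero_sub, norm_neg, norm_one] at h1
    linarith
  obtain ⟨w, hw, hmin⟩ := hcomp.exists_isMinOn hkne
    (f := fun w => ‖it f k w - w‖ / rh f k w)
    ((hci.sub continuous_id).norm.continuousOn.div hcr.continuousOn
      (fun w hw => (hpos w hw).ne'))
  refine ⟨k, w, hk1, hw, hpos w hw, ?_, ?_, ?_⟩
  · intro h0
    have h1 := hWO k w hk1 h0
    have h2 := hw.2
    linarith
  · intro m hm1 hmk
    have h1 := Nat.find_min hex hmk
    rw [← not_nonempty_iff_eq_empty]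
    exact fun h => h1 ⟨hm1, h⟩
  · intro w' hw'
    have h1 := hmin hw'
    simp only [mem_setOf_eq] at h1
    rw [div_le_div_iff₀ (hpos w hw) (hpos w' hw')] at h1
    exact h1

end SEWO
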