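import Pool.Agent.helper91.CSS.WO.Spec

/-! css: W+_S with attracting cycles: DRV (copy of Pool/Agent/helper92/WQ/DRV.lean) -/

set_option autoImplicit false

open Complex Metric Set Filter Topology MeasureTheory
open V3S (UF)
open SEW
open SEWA (Rt cI)

noncomputable section

open CSS (SE)

namespace SEWO

theorem DRV (hFXQ : WQA.FXQ_stmt) (hITB : SEWA.ITB_stmt) : DRV_stmt := by
  intro δ hδ hδ1
  obtain ⟨ε₀, hε₀, σ, hσ, hσ1, hF⟩ := hFXQ δ hδ hδ1
  refine ⟨min (ε₀ / 400) (σ / 400), lt_min (by positivity) (by positivity), ?_⟩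
  intro f ε₁ ε k w ρ m y hR hε₁ hvu
  obtain ⟨-, -, hadd, hdiff, -, -, -, hinj⟩ := hITB f
  have hB := hR.bs
  have hρ := hB.rho
  have hε := hB.e0
  have hle : ε ≤ min (ε₀ / 400) (σ / 400) := hB.e1.trans hε₁
  have he1 : ε ≤ ε₀ / 400 := hle.trans (min_le_left _ _)
  have he2 : ε ≤ σ / 400 := hle.trans (min_le_right _ _)
  have hy : ‖y - w‖ < ρ / 200 := by
    have := hR.y1
    rwa [mem_ball, dist_eq_norm] at this
  have hy16 : y ∈ ball w (ρ / 16) := by
    rw [mem_ball, dist_eq_norm]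
    linarith
  have hu := hB.hi y hy16
  have hsub : ball y (ρ / 100) ⊆ ball w ρ := by
    intro x hx
    rw [mem_ball, dist_eq_norm] at hx ⊢
    calc ‖x - w‖ = ‖(x - y) + (y - w)‖ := by ring_nf
      _ ≤ ‖x - y‖ + ‖y - w‖ := norm_add_le _ _
      _ < ρ := by linarith
  have hmk : m ≤ k := hR.ml.le
  have hinjm : InjOn (it f m) (ball y (ρ / 100)) := hinj _ m k hmk (hB.inj.mono hsub)
  by_contra hcon
  rw [not_le] at hcon
  have hdisp : ‖it f m y - y‖ ≤ ε₀ * (ρ / 100) := by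
    have h1 : ε * ρ ≤ ε₀ / 400 * ρ := mul_le_mul_of_nonneg_right he1 hρ.le
    calc ‖it f m y - y‖ ≤ 2 * ‖it f k y - y‖ := hvu
      _ ≤ 2 * (2 * ε * ρ) := by linarith
      _ = 4 * (ε * ρ) := by ring
      _ ≤ 4 * (ε₀ / 400 * ρ) := by linarith
      _ = ε₀ * (ρ / 100) := by ring
  obtain ⟨x, hx, hx1, hx2⟩ := hF (it f m) y (ρ / 100) (by positivity) ((hdiff m).differentiableOn) hinjm
    hdisp hcon.le
  have hx' : ‖x - y‖ < ρ / 100 := by
    rwa [mem_ball, dist_eq_norm] at hx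
  have hx16 : x ∈ ball w (ρ / 16) := by
    rw [mem_ball, dist_eq_norm]
    calc ‖x - w‖ = ‖(x - y) + (y - w)‖ := by ring_nf
      _ ≤ ‖x - y‖ + ‖y - w‖ := norm_add_le _ _
      _ < ρ / 16 := by linarith
  have hkx := hB.hi x hx16
  have hlo := hB.lo x hx16
  have hfix : it f m (it f k x) = it f k x := by
    rw [← hadd, add_comm, hadd, hx1]
  have hmem : it f k x ∈ ball x (σ * (ρ / 100)) := by
    rw [mem_ball, dist_eq_norm]
    have h1 : ε * ρ ≤ σ / 400 * ρ := mul_le_mul_of_nonneg_right he2 hρ.le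
    have h2 : 0 < σ * ρ := by positivity
    calc ‖it f k x - x‖ ≤ 2 * ε * ρ := hkx
      _ = 2 * (ε * ρ) := by ring
      _ ≤ 2 * (σ / 400 * ρ) := by linarith
      _ = σ * ρ / 200 := by ring
      _ < σ * ρ / 100 := by linarith
      _ = σ * (ρ / 100) := by ring
  have hkfix := hx2 _ hmem hfix
  rw [hkfix, sub_self, norm_zero] at hlo
  have : 0 < ε * ρ := by positivity
  linarith

end SEWO
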