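import Pool.Agent.helper91.CSS.WO.Spec

set_option autoImplicit false

open Complex Metric Set Filter Topology MeasureTheory
open V3S (UF)
open SEW
open SEWA (Rt cI)


noncomputable section

open CSS (SE)

namespace SEWO

theorem DSL (hCI0 : CI0_stmt) (hCI1 : SEWA.CI1_stmt) : DSL_stmt := by
  obtain ⟨C, hC, hI⟩ := hCI1
  have hC0 : 0 < C := by linarith
  refine ⟨min (1 / (8 * C)) (1 / 200), lt_min (by positivity) (by norm_num), 20 * C, by linarith, min_le_right _ _, ?_⟩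
  intro δ hδ hδ1
  obtain ⟨ε₃, hε₃, h0⟩ := hCI0 δ hδ hδ1
  refine ⟨min ε₃ (1 / (8 * C)), lt_min hε₃ (by positivity), ?_⟩
  intro f ε₁ ε k w ρ m y hdeg hWO hRt hε₁ hy1 hy2
  have hbs := hRt.bs
  have hρ := hbs.rho
  have hε := hbs.e0
  have hεε : ε ≤ 1 / (8 * C) := le_trans hbs.e1 (le_trans hε₁ (min_le_right _ _))
  have hCε : C * ε ≤ 1 / 8 := by
    have := mul_le_mul_of_nonneg_left hεε hC0.le
    have h2 : C * (1 / (8 * C)) = 1 / 8 := by field_simp
    linarith
  have hsum := h0 f ε₁ ε k w ρ m y hdeg hWO hRt (le_trans hε₁ (min_le_left _ _))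
  obtain ⟨hA, hB⟩ := hI f δ ε₁ ε k w ρ m y hRt (by linarith)
  set v : ℂ := it f m y - y with hv
  set u : ℂ := it f k y - y with hu
  set T : ℂ := cI f k 0 y v with hT
  have hy16 : y ∈ ball w (ρ / 16) := ball_subset_ball (by linarith) hRt.y1
  have hu1 : ε * ρ / 2 ≤ ‖u‖ := hbs.lo y hy16
  have hu2 : ‖u‖ ≤ 2 * ε * ρ := hbs.hi y hy16
  have hu0 : 0 < ‖u‖ := lt_of_lt_of_le (by positivity) hu1
  set D : ℝ := ‖v‖ / ρ with hD
  have hD0 : 0 ≤ D := by positivity
  have hv2 : ‖v‖ ≤ 2 * min (1 / (8 * C)) (1 / 200) * ρ := by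
    have h1 : ‖y - w‖ < min (1 / (8 * C)) (1 / 200) * ρ := by
      rwa [mem_ball, dist_eq_norm] at hy1
    have h2 : ‖it f m y - w‖ < min (1 / (8 * C)) (1 / 200) * ρ := by
      rwa [mem_ball, dist_eq_norm] at hy2
    have h3 : v = (it f m y - w) - (y - w) := by rw [hv]; ring
    rw [h3]
    have := norm_sub_le (it f m y - w) (y - w)
    linarith
  have hCD : C * D ≤ 1 / 4 := by
    have h1 : D ≤ 2 * (1 / (8 * C)) := by
      rw [hD, div_le_iff₀ hρ]
      have : min (1 / (8 * C)) (1 / 200) ≤ 1 / (8 * C) := min_le_left _ _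
      nlinarith
    have := mul_le_mul_of_nonneg_left h1 hC0.le
    have h2 : C * (2 * (1 / (8 * C))) = 1 / 4 := by field_simp; norm_num
    linarith
  have hk : (0 : ℝ) < k := by exact_mod_cast hbs.k1
  have hmk : (m : ℝ) ≤ k := by exact_mod_cast hRt.ml.le
  have h1 : ‖∑ q ∈ Finset.range k, cI f k q y v - (k : ℂ) * T‖ ≤ k * (C * D) := by
    have e1 : ∑ q ∈ Finset.range k, cI f k q y v - (k : ℂ) * T = ∑ q ∈ Finset.range k, (cI f k q y v - T) := by
      rw [Finset.sum_sub_distrib, Finset.sum_const, Finset.card_range, nsmul_eq_mul]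
    rw [e1]
    refine (norm_sum_le _ _).trans ?_
    have : ∑ q ∈ Finset.range k, ‖cI f k q y v - T‖ ≤ ∑ q ∈ Finset.range k, C * D := by
      apply Finset.sum_le_sum
      intro q hq
      have := (hA q (Finset.mem_range.1 hq)).1
      rw [hD, ← mul_div_assoc]
      exact this
    rw [Finset.sum_const, Finset.card_range, nsmul_eq_mul] at this
    exact this
  have h2 : ‖∑ q ∈ Finset.range m, cI f k q y u - (m : ℂ)‖ ≤ m * (C * ε) := by
    have e1 : ∑ q ∈ Finset.range m, cI f k q y u - (m : ℂ) = ∑ q ∈ Finset.range m, (cI f k q y u - 1) := by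
      rw [Finset.sum_sub_distrib, Finset.sum_const, Finset.card_range, nsmul_eq_mul, mul_one]
    rw [e1]
    refine (norm_sum_le _ _).trans ?_
    have : ∑ q ∈ Finset.range m, ‖cI f k q y u - 1‖ ≤ ∑ q ∈ Finset.range m, C * ε := by
      apply Finset.sum_le_sum
      intro q hq
      exact (hA q (lt_trans (Finset.mem_range.1 hq) hRt.ml)).2
    rw [Finset.sum_const, Finset.card_range, nsmul_eq_mul] at this
    exact this
  have h3 : ‖(k : ℂ) * T - m‖ ≤ k * (C * D) + m * (C * ε) := by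
    have e1 : (k : ℂ) * T - m = (∑ q ∈ Finset.range m, cI f k q y u - (m : ℂ)) -
        (∑ q ∈ Finset.range k, cI f k q y v - (k : ℂ) * T) := by
      rw [hsum]; ring
    rw [e1]
    have := norm_sub_le (∑ q ∈ Finset.range m, cI f k q y u - (m : ℂ)) (∑ q ∈ Finset.range k, cI f k q y v - (k : ℂ) * T)
    linarith
  have h4 : (k : ℝ) * ‖T‖ ≤ m + (k * (C * D) + k * (C * ε)) := by
    have e1 : (k : ℝ) * ‖T‖ = ‖(k : ℂ) * T‖ := by
      rw [norm_mul, Complex.norm_natCast]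
    have e2 : ‖(k : ℂ) * T‖ ≤ ‖(k : ℂ) * T - m‖ + ‖(m : ℂ)‖ := norm_le_norm_sub_add _ _
    rw [Complex.norm_natCast] at e2
    have e3 : (m : ℝ) * (C * ε) ≤ k * (C * ε) := mul_le_mul_of_nonneg_right hmk (by positivity)
    linarith
  have h5 : ‖T‖ ≤ (m : ℝ) / k + C * D + C * ε := by
    have e1 : (m : ℝ) / k + C * D + C * ε = (m + (k * (C * D) + k * (C * ε))) / k := by
      field_simp
      ring
    rw [e1, le_div_iff₀ hk]
    linarith
  have hmk1 : (m : ℝ) / k ≤ 1 := by rwa [div_le_one hk]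
  set X : ℝ := ‖v / u‖ with hX
  have hX0 : 0 ≤ X := norm_nonneg _
  have h6 : X ≤ ‖T‖ + C * D * X := by
    have e1 : ‖v / u‖ ≤ ‖T‖ + ‖T - v / u‖ := by
      have := norm_sub_le T (T - v / u)
      have e2 : T - (T - v / u) = v / u := by ring
      rw [e2] at this
      exact this
    have e2 : ‖T - v / u‖ ≤ C * D * X := hB
    linarith
  have hX2 : X ≤ 2 := by nlinarith
  have hvX : ‖v‖ = X * ‖u‖ := by
    rw [hX, norm_div, div_mul_cancel₀ _ hu0.ne']
  have hD4 : D ≤ 4 * ε := by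
    rw [hD, div_le_iff₀ hρ, hvX]
    nlinarith
  have hCD4 : C * D ≤ 4 * (C * ε) := by nlinarith
  have h7 : X ≤ (m : ℝ) / k + 13 * (C * ε) := by
    have e1 : C * D * X ≤ 4 * (C * ε) * 2 := by
      apply mul_le_mul hCD4 hX2 hX0 (by positivity)
    linarith
  rw [hvX]
  apply mul_le_mul_of_nonneg_right _ hu0.le
  nlinarith [mul_pos hC0 hε]

end SEWO
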