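import Pool.Agent.helper91.CSS.WO.Spec

/-!
# Project wp: (MP_af9036_an), module GEO (helper46): the geometric part, assembly
-/

set_option autoImplicit false

open Complex Metric Set Filter Topology MeasureTheory
open V3S (UF)
open SEW
open SEWA (Rt cI)


noncomputable section

open CSS (SE)

namespace SEWO

theorem GEO (hNFO : NFO_stmt) (hDJC : DJC_stmt) (hSMC : SEWA.SMC_stmt) (hRHO : SEWA.RHO_stmt) : GEO_stmt := by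
  obtain ⟨c₀, hc₀, hc₀', hD⟩ := hDJC
  obtain ⟨C, hC, hS⟩ := hSMC c₀ hc₀ hc₀'
  refine ⟨C, hC, fun δ hδ hδ1 ε hε => ?_⟩
  obtain ⟨ε₅, h5, hD⟩ := hD δ hδ hδ1
  obtain ⟨ε₆, h6, hS⟩ := hS ε hε
  obtain ⟨ε₂, h2, -, hN⟩ := hNFO δ hδ hδ1
  obtain ⟨ε₁, he₁⟩ : ∃ ε₁, ε₁ = min ε₂ (min ε₅ ε₆) := ⟨_, rfl⟩
  have hε₁ : 0 < ε₁ := by rw [he₁]; exact lt_min h2 (lt_min h5 h6)
  have h12 : ε₁ ≤ ε₂ := by rw [he₁]; exact min_le_left _ _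
  have h15 : ε₁ ≤ ε₅ := by rw [he₁]; exact (min_le_right _ _).trans (min_le_left _ _)
  have h16 : ε₁ ≤ ε₆ := by rw [he₁]; exact (min_le_right _ _).trans (min_le_right _ _)
  refine ⟨min ε₁ (δ / 10), lt_min hε₁ (by positivity), ?_⟩
  intro f hWO k w ρ hk hρ hinj hw hd
  have hr : ρ ≤ rh f k w := (hRHO f k hk).2.1 w ρ hinj
  have hmem : w ∈ NN f δ ε₁ k := by
    refine ⟨hw.trans ?_, hd.trans (min_le_right _ _)⟩
    exact mul_le_mul (min_le_left _ _) hr hρ.le hε₁.le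
  obtain ⟨ε', k', w', ρ', hB⟩ := hN ε₁ hε₁ h12 f hWO ⟨k, hk, ⟨w, hmem⟩⟩
  have hdeg : 2 ≤ f.natDegree := f.two_le_natDegree
  obtain ⟨w'', ρ'', hG⟩ := hS f δ ε₁ ε' k' w' ρ' hB h16
    (hD f ε₁ ε' k' w' ρ' hdeg hWO hB h15)
  exact ⟨k', w'', ρ'', hG⟩

end SEWO
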