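import Pool.Agent.helper91.CSS.WO.Spec

/-!
# Project wp: (MP_af9036_an), module NFO (helper46): the normal form (2.1)
-/

set_option autoImplicit false

open Complex Metric Set Filter Topology MeasureTheory
open V3S (UF)
open SEW
open SEWA (Rt cI)


noncomputable section

open CSS (SE)

namespace SEWO

theorem NFO (hRIG : WQA.RIG_stmt) (hHRN : WPA.HRN_stmt) (hCHO : CHO_stmt) (hRHO : SEWA.RHO_stmt)
    (hITB : SEWA.ITB_stmt) : NFO_stmt := by
  intro δ hδ hδ1
  have hη : 0 < min (δ / 20) (1 / 4) := lt_min (by positivity) (by norm_num)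
  have hη1 : min (δ / 20) (1 / 4 : ℝ) < 1 := (min_le_right _ _).trans_lt (by norm_num)
  obtain ⟨e2, he2, hR⟩ := hRIG δ hδ hδ1 (min (δ / 20) (1 / 4)) hη hη1
  refine ⟨min e2 (1 / 4), lt_min he2 (by norm_num), min_le_right _ _, ?_⟩
  intro ε₁ hε₁ hε₁2 f hWO hex
  obtain ⟨k, w, hk, hwN, hrh, hne, hmin, hopt⟩ :=
    hCHO f δ ε₁ hδ hδ1 hε₁ (hε₁2.trans (min_le_right _ _)) hWO hex
  obtain ⟨hRa, hRb, hRc, -, hRe⟩ := hRHO f k hk
  obtain ⟨-, -, -, hdiff, -⟩ := hITB f
  obtain ⟨ρ, hρdef⟩ : ∃ ρ, ρ = rh f k w := ⟨_, rfl⟩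
  have hρ : 0 < ρ := by rw [hρdef]; exact hrh
  have hρC : (ρ : ℂ) ≠ 0 := by exact_mod_cast hρ.ne'
  have hgw : 0 < ‖it f k w - w‖ := norm_pos_iff.mpr (sub_ne_zero.mpr hne)
  obtain ⟨ε, hεdef⟩ : ∃ ε, ε = ‖it f k w - w‖ / ρ := ⟨_, rfl⟩
  have hε : 0 < ε := by rw [hεdef]; positivity
  have hctr : ‖it f k w - w‖ = ε * ρ := by rw [hεdef]; field_simp
  have hε1 : ε ≤ ε₁ := by
    have h1 := hwN.1
    rw [← hρdef, hctr] at h1
    exact le_of_mul_le_mul_right h1 hρ
  have hinj : InjOn (it f k) (ball w ρ) := by rw [hρdef]; exact (hRa w).2.2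
  -- the rescaled map
  have hmem : ∀ x ∈ ball (0 : ℂ) 1, w + ρ * x ∈ ball w ρ := by
    intro x hx
    rw [mem_ball_zero_iff] at hx
    rw [mem_ball, dist_eq_norm, add_sub_cancel_left, norm_mul, Complex.norm_real,
      Real.norm_of_nonneg hρ.le]
    nlinarith
  have hFd : ∀ x : ℂ, HasDerivAt (fun x : ℂ => (it f k (w + ρ * x) - w) / ρ)
      (deriv (it f k) (w + ρ * x)) x := by
    intro x
    have h1 : HasDerivAt (fun x : ℂ => w + ρ * x) (ρ : ℂ) x := by
      have h2 := ((hasDerivAt_id x).const_mul (ρ : ℂ)).const_add w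
      simpa using h2
    have h3 : HasDerivAt (it f k) (deriv (it f k) (w + ρ * x)) (w + ρ * x) :=
      (hdiff k (w + ρ * x)).hasDerivAt
    have h4 := ((h3.comp x h1).sub_const w).div_const (ρ : ℂ)
    have h5 : deriv (it f k) (w + ρ * x) * (ρ : ℂ) / ρ = deriv (it f k) (w + ρ * x) := by
      field_simp
    rw [h5] at h4
    exact h4
  have hRF := hR (fun x : ℂ => (it f k (w + ρ * x) - w) / ρ)
    (fun x _ => (hFd x).differentiableAt.differentiableWithinAt)
    (by
      intro x hx y hy hxy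
      have h1 : it f k (w + ρ * x) = it f k (w + ρ * y) := by
        have h2 : (it f k (w + ρ * x) - w) / ρ = (it f k (w + ρ * y) - w) / ρ := hxy
        rw [div_left_inj' hρC] at h2
        exact sub_left_inj.mp h2
      have h3 := hinj (hmem x hx) (hmem y hy) h1
      exact mul_left_cancel₀ hρC (add_left_cancel h3))
    (by
      have h1 : ‖(it f k (w + ρ * 0) - w) / ρ‖ = ε := by
        rw [mul_zero, add_zero, norm_div, Complex.norm_real, Real.norm_of_nonneg hρ.le, hctr]
        field_simp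
      have h2 : ε ≤ e2 := hε1.trans (hε₁2.trans (min_le_left _ _))
      exact h1.le.trans h2)
    (by
      rw [(hFd 0).deriv, mul_zero, add_zero]
      exact hwN.2)
    (by
      intro x hx hfx
      rw [(hFd x).deriv]
      refine hWO k (w + ρ * x) (by omega) ?_
      have h2 : (it f k (w + ρ * x) - w) / ρ = x := hfx
      rw [div_eq_iff hρC] at h2
      rw [sub_eq_iff_eq_add] at h2
      rw [h2]
      ring)
  -- back to the z-plane
  have hz : ∀ z ∈ ball w (ρ / 2), it f k z ≠ z ∧ ‖deriv (it f k) z - 1‖ ≤ δ / 10 := by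
    intro z hz
    have hzx : w + ρ * ((z - w) / ρ) = z := by field_simp; ring
    have hx : (z - w) / ρ ∈ ball (0 : ℂ) (1 - min (δ / 20) (1 / 4)) := by
      rw [mem_ball, dist_eq_norm] at hz
      rw [mem_ball_zero_iff, norm_div, Complex.norm_real, Real.norm_of_nonneg hρ.le,
        div_lt_iff₀ hρ]
      have h1 : min (δ / 20) (1 / 4 : ℝ) ≤ 1 / 4 := min_le_right _ _
      nlinarith
    obtain ⟨-, h2, h3⟩ := hRF _ hx
    rw [(hFd _).deriv, hzx] at h3
    constructor
    · intro hcon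
      apply h2
      show (it f k (w + ρ * ((z - w) / ρ)) - w) / ρ = (z - w) / ρ
      rw [hzx, hcon]
    · have h4 : min (δ / 20) (1 / 4 : ℝ) ≤ δ / 20 := min_le_left _ _
      linarith
  have hlow : ∀ z ∈ ball w (ρ / 2), ε * ρ / 2 ≤ ‖it f k z - z‖ := by
    intro z hzb
    have hzb' := hzb
    rw [mem_ball, dist_eq_norm] at hzb'
    have h1 := hRc z w
    rw [← hρdef] at h1
    have h2 := (abs_le.mp h1).1
    have h3 : ρ / 2 ≤ rh f k z := by linarith
    by_cases hc1 : ‖it f k z - z‖ ≤ ε₁ * rh f k z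
    · have h4 := hopt z ⟨hc1, (hz z hzb).2⟩
      rw [← hρdef, hctr] at h4
      have h5 : ε * rh f k z ≤ ‖it f k z - z‖ := by
        have h6 : (ε * rh f k z) * ρ ≤ ‖it f k z - z‖ * ρ := by linarith [h4]
        exact le_of_mul_le_mul_right h6 hρ
      nlinarith
    · have h4 := not_le.mp hc1
      nlinarith
  have hH := hHRN (fun z => it f k z - z) w (ρ / 2) (ε * ρ / 2) (by positivity) (by positivity)
    (((hdiff k).sub differentiable_id).differentiableOn) hlow
    (by
      show ‖it f k w - w‖ = 2 * (ε * ρ / 2)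
      rw [hctr]; ring)
  refine ⟨ε, k, w, ρ, ?_⟩
  refine
    { k1 := hk
      rho := hρ
      inj := hinj
      maxi := by rw [hρdef]; exact hRe w hrh
      e0 := hε
      e1 := hε1
      ctr := hctr
      nf := fun z hzb => (hz z hzb).1
      lo := fun z hzb => hlow z (ball_subset_ball (by linarith) hzb)
      hi := ?_
      de := ?_
      mn := ?_ }
  · intro z hzb
    have h1 := hH.1 z (ball_subset_ball (by linarith) hzb)
    have h2 : 4 * (ε * ρ / 2) = 2 * ε * ρ := by ring
    rw [h2] at h1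
    exact h1
  · intro z hzb
    have h1 := hH.2 z (ball_subset_ball (by linarith) hzb)
    have h2 : deriv (fun z => it f k z - z) z = deriv (it f k) z - 1 := by
      have h3 := ((hdiff k z).hasDerivAt.sub (hasDerivAt_id z)).deriv
      exact h3
    rw [h2] at h1
    have h4 : 32 * (ε * ρ / 2) / (ρ / 2) = 32 * ε := by field_simp
    rw [h4] at h1
    exact h1
  · intro m hm1 hmk z s hs hinj' hd
    by_contra hcon
    have h1 := not_lt.mp hcon
    obtain ⟨-, hRb', -, -, -⟩ := hRHO f m hm1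
    have h2 := hRb' z s hinj'
    have h3 : z ∈ NN f δ ε₁ m :=
      ⟨h1.trans (mul_le_mul_of_nonneg_left h2 hε₁.le), hd⟩
    rw [hmin m hm1 hmk] at h3
    exact h3

end SEWO
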