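import Pool.Agent.helper91.CSS.WO.Spec

/-! css: W+_S: THEOREM W+ for class S from the uniform form -/

set_option autoImplicit false

open Complex Metric Set Filter Topology MeasureTheory
open V3S (UF)
open SEW

noncomputable section

open CSS (SE)

namespace SEWO

theorem WPO (hWPU : WPU_stmt) : SEWT.WPO_stmt := by
  intro f δ hδ hrep
  obtain ⟨ε₀, hε₀, h⟩ := hWPU f.natDegree δ hδ
  exact ⟨ε₀, hε₀, fun k w ρ hk hρ hinj hn hd => h f rfl (fun k z hk hz => hrep k z hk hz) k w ρ hk hρ hinj hn hd⟩

end SEWO
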