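import Pool.Agent.helper91.CSS.WO.Spec

/-! # Project ewp: (MP_70a088_an): module WPU (Theorem W+ for the exponential family, uniform form) (helper75; adaptation of helper31/WP/WPU.lean) -/

set_option autoImplicit false

open Complex Metric Set Filter Topology MeasureTheory
open V3S (UF)
open SEW
open SEWA (Rt cI)

noncomputable section

open CSS (SE)

namespace SEWO


variable {n : ℕ}
/-- the failure of `Geo` for a datum whose return is near the identity on the large ball. -/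
theorem WPU_fail (hCB1 : SEWC.CB1_stmt) {C : ℝ} (hC : 1 ≤ C) {D : Dat n} (hρ : 0 < D.ρ)
    (h1 : InjOn (D.F D.k) (ball 0 C)) (h2 : ∀ x ∈ ball (0 : ℂ) C, ‖D.F D.k x - x‖ ≤ 1 / 4) :
    InjOn (it D.f D.k) (ball D.w (C * D.ρ)) ∧
      MapsTo (it D.f D.k) (ball D.w (C * D.ρ / 2)) (ball D.w (C * D.ρ)) := by
  obtain ⟨hsg, hsgn, hxz, hzx, -, -, -, -, -, hzF, -⟩ := hCB1 D hρ
  have hx : ∀ (t : ℝ) (z : ℂ), z ∈ ball D.w (t * D.ρ) → D.xx z ∈ ball (0 : ℂ) t := by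
    intro t z hz
    rw [mem_ball, dist_eq_norm] at hz
    rw [mem_ball_zero_iff]
    unfold Dat.xx
    rw [norm_div, hsgn, div_lt_iff₀ hρ]
    exact hz
  have hit : ∀ z, it D.f D.k z = D.zz (D.F D.k (D.xx z)) := by
    intro z
    rw [hzF, hzx]
  constructor
  · intro z hz z' hz' he
    have h3 : D.F D.k (D.xx z) = D.F D.k (D.xx z') := by
      rw [← hxz (D.F D.k (D.xx z)), ← hit, he, hit, hxz]
    have h4 := h1 (hx C z hz) (hx C z' hz') h3
    rw [← hzx z, h4, hzx]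
  · intro z hz
    have h3 : D.xx z ∈ ball (0 : ℂ) (C / 2) := by
      apply hx
      rw [show C / 2 * D.ρ = C * D.ρ / 2 by ring]
      exact hz
    have h4 : D.xx z ∈ ball (0 : ℂ) C := ball_subset_ball (by linarith) h3
    have h5 := h2 _ h4
    rw [mem_ball_zero_iff] at h3
    have h6 : ‖D.F D.k (D.xx z)‖ < C := by
      calc ‖D.F D.k (D.xx z)‖ = ‖(D.F D.k (D.xx z) - D.xx z) + D.xx z‖ := by rw [sub_add_cancel]
        _ ≤ ‖D.F D.k (D.xx z) - D.xx z‖ + ‖D.xx z‖ := norm_add_le _ _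
        _ < C := by linarith
    rw [hit, mem_ball, dist_eq_norm]
    have h7 : D.zz (D.F D.k (D.xx z)) - D.w = D.sg * D.F D.k (D.xx z) := by
      unfold Dat.zz
      ring
    rw [h7, norm_mul, hsgn, mul_comm]
    exact mul_lt_mul_of_pos_right h6 hρ

theorem WPU (hMPX : SEWT.MPX_stmt) (hGEO : GEO_stmt) (hBDT : SEWB.BDT_stmt)
    (hCB1 : SEWC.CB1_stmt) : WPU_stmt := by
  intro n δ hδ
  obtain ⟨C, hC, hgeo⟩ := hGEO
  have key : ∃ ε > (0 : ℝ), ∀ (f : SE), f.natDegree = n → ∀ (k : ℕ) (w : ℂ) (ρ : ℝ), ¬ Geo C ε f k w ρ := by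
    by_contra hcon
    push Not at hcon
    have hex : ∀ m : ℕ, ∃ D : Dat n, (∃ ε : ℝ, Geo C ε D.f D.k D.w D.ρ) ∧ D.om ≤ 1 / ((m : ℝ) + 1) ∧
        D.s = (1 + ‖D.ca‖ + ‖D.cb‖)⁻¹ ∧ D.Good n C ((m : ℝ) + 1) := by
      intro m
      have hm : (0 : ℝ) ≤ (m : ℝ) := Nat.cast_nonneg m
      obtain ⟨ε, hε, hb⟩ := hBDT n C ((m : ℝ) + 1) (1 / ((m : ℝ) + 1)) hC (by linarith)
        (by positivity)
      obtain ⟨f, hdegf, k, w, ρ, hG⟩ := hcon ε hε
      obtain ⟨D, e1, e2, e3, e4, hom, hs, hgood⟩ := hb f hdegf k w ρ hG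
      refine ⟨D, ⟨ε, ?_⟩, hom, hs, hgood⟩
      rw [e1, e2, e3, e4]
      exact hG
    choose D hG hom hs hgood using hex
    have hSeq : Seq n C D := by
      refine ⟨⟨fun m => (m : ℝ) + 1, ?_, hgood⟩, ?_, hs⟩
      · exact tendsto_atTop_add_const_right _ _ tendsto_natCast_atTop_atTop
      · exact squeeze_zero (fun m => (hgood m).om0.le) hom tendsto_one_div_add_atTop_nhds_zero_nat
    obtain ⟨m, h1, h2⟩ := (hMPX n C D hC hSeq C (by linarith) (1 / 4) (by norm_num)).exists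
    obtain ⟨ε, hGm⟩ := hG m
    exact hGm.fail (WPU_fail hCB1 hC (hgood m).rho h1 h2)
  obtain ⟨ε, hε, hkey⟩ := key
  obtain ⟨ε₀, hε₀, hg⟩ := hgeo (min δ 1) (lt_min hδ one_pos) (min_le_right _ _) ε hε
  refine ⟨ε₀, hε₀, ?_⟩
  intro f hdegf hWO k w ρ hk hρ hinj hnear hder
  have hWO' : WO (min δ 1) f := by
    intro k z hk hz
    have h1 := hWO k z hk hz
    have h2 := min_le_left δ 1
    linarith
  obtain ⟨k', w', ρ', hG⟩ := hg f hWO' k w ρ hk hρ hinj hnear hder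
  exact hkey f hdegf k' w' ρ' hG

end SEWO
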