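import Pool.Agent.helper91.CSS.WP.All
import Pool.Agent.helper91.CSS.WO.CHO
import Pool.Agent.helper91.CSS.WO.NFO
import Pool.Agent.helper91.CSS.WO.CI0
import Pool.Agent.helper91.CSS.WO.DSL
import Pool.Agent.helper91.CSS.WO.DRV
import Pool.Agent.helper91.CSS.WO.DJC
import Pool.Agent.helper91.CSS.WO.GEO
import Pool.Agent.helper91.CSS.WO.WPU
import Pool.Agent.helper91.CSS.WO.WPO
import Pool.Agent.helper57.WQ.RIG
import Pool.Agent.helper16.WQ.FXQ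

/-! Assembly of W+ for class S with attracting cycles allowed (project css:, helper91): `SEWT.WPO_e : SEWT.WPO_stmt` has no hypothesis. -/

set_option autoImplicit false

theorem SEWO.CHO_e : SEWO.CHO_stmt := SEWO.CHO SEWA.RHO_e SEWA.NNB_e SEWA.ITB_e
theorem SEWO.NFO_e : SEWO.NFO_stmt := SEWO.NFO (WQA.RIG V3A.KO2_v V3A.TMO_v V3A.TDE_v V3A.THU_v) WPA.HRN SEWO.CHO_e SEWA.RHO_e SEWA.ITB_e
theorem SEWO.CI0_e : SEWO.CI0_stmt := SEWO.CI0 SEWA.ITB_e (WPA.LIN V3A.KO0_v V3A.KO1_v V3A.KO3_v) SEWA.POL_e SEWA.CHN_e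
theorem SEWO.DSL_e : SEWO.DSL_stmt := SEWO.DSL SEWO.CI0_e SEWA.CI1_e
theorem SEWO.DRV_e : SEWO.DRV_stmt := SEWO.DRV (WQA.FXQ V3A.KO3_v) SEWA.ITB_e
theorem SEWO.DJC_e : SEWO.DJC_stmt := SEWO.DJC SEWO.DSL_e SEWO.DRV_e SEWA.ITB_e
theorem SEWO.GEO_e : SEWO.GEO_stmt := SEWO.GEO SEWO.NFO_e SEWO.DJC_e SEWA.SMC_e SEWA.RHO_e
theorem SEWO.WPU_e : SEWO.WPU_stmt := SEWO.WPU SEWT.MPX_e SEWO.GEO_e SEWB.BDT_e SEWC.CB1_e
theorem SEWT.WPO_e : SEWT.WPO_stmt := SEWO.WPO SEWO.WPU_e
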