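import Pool.Agent.helper91.CSS.WP.SpecA
import Pool.Agent.helper91.CSS.WP.SpecB
import Pool.Agent.helper91.CSS.WP.SpecT
import Pool.Agent.helper52.WQ.SpecA

/-!
# Project css: (MP_70a088_an, class S): Theorem W+ with attracting cycles allowed (helper91)

The hypothesis `WO`: at every point with `f^k z = z`, `k ≥ 1`, the multiplier has distance at least `δ` from `1` (instead of `WD`: all cycles uniformly repelling). Only part A uses the hypothesis; the changes are the changes from project wp: to project wp2: (helper52, Pool/Agent/helper52/WQ/SpecA.lean):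
RIG is replaced by `WQA.RIG_stmt` (pure), DRV has no hypothesis on the cycles and uses `WQA.FXQ_stmt` (pure).
-/

set_option autoImplicit false

open Complex Metric Set Filter Topology MeasureTheory
open V3S (UF)
open SEW
open SEWA (Rt cI)

noncomputable section

open CSS (SE)

namespace SEWO

/-- at every point with `f^k z = z`, `k ≥ 1`, the derivative of `f^k` has distance at least `δ` from `1`. -/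
def WO (δ : ℝ) (f : SE) : Prop := ∀ (k : ℕ) (z : ℂ), 0 < k → it f k z = z → δ ≤ ‖deriv (it f k) z - 1‖

/-- CHO. As `SEWA.CHO_stmt`. -/
def CHO_stmt : Prop := ∀ (f : SE) (δ ε₁ : ℝ), 0 < δ → δ ≤ 1 → 0 < ε₁ → ε₁ ≤ 1 / 4 →
  WO δ f → (∃ k, 1 ≤ k ∧ (NN f δ ε₁ k).Nonempty) → ∃ (k : ℕ) (w : ℂ), 1 ≤ k ∧
  w ∈ NN f δ ε₁ k ∧ 0 < rh f k w ∧ it f k w ≠ w ∧
  (∀ m, 1 ≤ m → m < k → NN f δ ε₁ m = ∅) ∧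
  ∀ w' ∈ NN f δ ε₁ k, ‖it f k w - w‖ * rh f k w' ≤ ‖it f k w' - w'‖ * rh f k w

/-- NFO. As `SEWA.NFO_stmt`. -/
def NFO_stmt : Prop := ∀ δ : ℝ, 0 < δ → δ ≤ 1 → ∃ ε₂ > (0 : ℝ), ε₂ ≤ 1 / 4 ∧ ∀ ε₁ : ℝ, 0 < ε₁ → ε₁ ≤ ε₂ →
  ∀ f : SE, WO δ f →
  (∃ k, 1 ≤ k ∧ (NN f δ ε₁ k).Nonempty) → ∃ (ε : ℝ) (k : ℕ) (w : ℂ) (ρ : ℝ), Bs f δ ε₁ ε k w ρ

/-- CI0. As `SEWA.CI0_stmt`. -/
def CI0_stmt : Prop := ∀ δ : ℝ, 0 < δ → δ ≤ 1 → ∃ ε₃ > (0 : ℝ), ∀ (f : SE) (ε₁ ε : ℝ) (k : ℕ) (w : ℂ) (ρ : ℝ)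
  (m : ℕ) (y : ℂ), 2 ≤ f.natDegree → WO δ f → Rt f δ ε₁ ε k w ρ m y → ε₁ ≤ ε₃ →
  ∑ q ∈ Finset.range k, cI f k q y (it f m y - y) = ∑ q ∈ Finset.range m, cI f k q y (it f k y - y)

/-- DSL. As `SEWA.DSL_stmt`. -/
def DSL_stmt : Prop := ∃ c₁ > (0 : ℝ), ∃ C : ℝ, 1 ≤ C ∧ c₁ ≤ 1 / 200 ∧ ∀ δ : ℝ, 0 < δ → δ ≤ 1 → ∃ ε₃ > (0 : ℝ),
  ∀ (f : SE) (ε₁ ε : ℝ) (k : ℕ) (w : ℂ) (ρ : ℝ) (m : ℕ) (y : ℂ), 2 ≤ f.natDegree → WO δ f →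
  Rt f δ ε₁ ε k w ρ m y → ε₁ ≤ ε₃ → y ∈ ball w (c₁ * ρ) → it f m y ∈ ball w (c₁ * ρ) →
  ‖it f m y - y‖ ≤ ((m : ℝ) / k + C * ε) * ‖it f k y - y‖

/-- DRV. As `WQA.DRV_stmt`. -/
def DRV_stmt : Prop := ∀ δ : ℝ, 0 < δ → δ ≤ 1 → ∃ ε₄ > (0 : ℝ), ∀ (f : SE) (ε₁ ε : ℝ) (k : ℕ) (w : ℂ)
  (ρ : ℝ) (m : ℕ) (y : ℂ), Rt f δ ε₁ ε k w ρ m y → ε₁ ≤ ε₄ → ‖it f m y - y‖ ≤ 2 * ‖it f k y - y‖ →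
  ‖deriv (it f m) y - 1‖ ≤ δ / 10

/-- DJC. As `SEWA.DJC_stmt`. -/
def DJC_stmt : Prop := ∃ c₀ > (0 : ℝ), c₀ ≤ 1 / 400 ∧ ∀ δ : ℝ, 0 < δ → δ ≤ 1 → ∃ ε₅ > (0 : ℝ), ∀ (f : SE) (ε₁ ε : ℝ)
  (k : ℕ) (w : ℂ) (ρ : ℝ), 2 ≤ f.natDegree → WO δ f → Bs f δ ε₁ ε k w ρ → ε₁ ≤ ε₅ →
  ∀ i j, i < j → j < k → Disjoint (it f i '' ball w (c₀ * ρ)) (it f j '' ball w (c₀ * ρ))

/-- GEO. As `SEW.GEO_stmt`. -/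
def GEO_stmt : Prop := ∃ C : ℝ, 1 ≤ C ∧ ∀ δ : ℝ, 0 < δ → δ ≤ 1 → ∀ ε : ℝ, 0 < ε → ∃ ε₀ > (0 : ℝ),
  ∀ f : SE, WO δ f → ∀ (k : ℕ) (w : ℂ) (ρ : ℝ), 1 ≤ k → 0 < ρ →
  InjOn (it f k) (ball w ρ) → ‖it f k w - w‖ ≤ ε₀ * ρ → ‖deriv (it f k) w - 1‖ ≤ ε₀ →
  ∃ (k' : ℕ) (w' : ℂ) (ρ' : ℝ), Geo C ε f k' w' ρ'

/-- W+ for class S with the hypothesis `WO`, uniform form. -/
def WPU_stmt : Prop := ∀ (n : ℕ), ∀ δ > (0 : ℝ), ∃ ε₀ > (0 : ℝ), ∀ f : SE, f.natDegree = n → WO δ f → ∀ (k : ℕ) (w : ℂ) (ρ : ℝ), 1 ≤ k → 0 < ρ →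
  InjOn (it f k) (ball w ρ) → ‖it f k w - w‖ ≤ ε₀ * ρ → ‖deriv (it f k) w - 1‖ ≤ ε₀ → False

end SEWO

namespace SEWT

/-- WPO: THEOREM W+ FOR CLASS S, attracting cycles allowed. -/
def WPO_stmt : Prop := ∀ (f : SE) (δ : ℝ), 0 < δ → (∀ (k : ℕ) (z : ℂ), 0 < k → CSS.it f k z = z → δ ≤ ‖deriv (CSS.it f k) z - 1‖) →
  ∃ ε₀ : ℝ, 0 < ε₀ ∧ ∀ (k : ℕ) (w : ℂ) (ρ : ℝ), 1 ≤ k → 0 < ρ → InjOn (CSS.it f k) (ball w ρ) → ‖CSS.it f k w - w‖ ≤ ε₀ * ρ →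
    ‖deriv (CSS.it f k) w - 1‖ ≤ ε₀ → False

end SEWT
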